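import Pool.Agent.AML.C.Defs

/-! # Block G (collapse of the slits): definitions.

Every level `f` carries at most one slit: if `f = lev k + n` with `0 < ell k` (`k` a 'right end'),
the slit is the segment `|x - n - cen k| ≤ hal k`, a run of `ell k` unit segments. -/

set_option linter.style.longLine false

open Topology Set

namespace Pool.AML

noncomputable section

/-- `ell k` = length of the run of slits whose right end is the segment `[-1/2, 1/2]` at the level
`lev k`; zero if `k` is not a right end. -/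
def ellTab : List ℕ := [0, 3, 0, 1, 0, 2, 1, 0, 5, 0, 1, 0, 0, 1, 0, 3, 0, 1, 0, 0, 0, 0, 0, 0, 0, 0, 0,
  0, 0, 0, 0, 0, 0, 0, 0, 0, 5, 0, 3, 0, 3, 0, 0, 2, 0, 1, 0, 1, 1, 0, 1, 0, 1, 0]

def ell (k : Fin 54) : ℕ := ellTab.getD k 0

/-- centre of the run. -/
def cen (k : Fin 54) : ℝ := 1 / 2 - (ell k : ℝ) / 2

/-- half length of the run. -/
def hal (k : Fin 54) : ℝ := (ell k : ℝ) / 2

/-- weight in the level direction: `1` exactly on the level (for `h > 0`), `0` if `h ≤ 0`. -/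
def th (k : Fin 54) (f : OnePoint ℝ) (h : ℝ) : ℝ :=
  f.elim 0 (fun y => if h ≤ 0 then 0 else max 0 (1 - |y - lev k| / (1 / 200 * min h 1)))

/-- `z` clamped to `[-q, q]`, `q = max 0 (m (m + δ - |z|) / δ)`: equals `z` for `|z| ≤ m`, zero for
`|z| ≥ m + δ`, affine in between. -/
def psi (m δ z : ℝ) : ℝ :=
  max (-(max 0 (m * (m + δ - |z|) / δ))) (min z (max 0 (m * (m + δ - |z|) / δ)))

/-- displacement caused by the run `(k, n)`. -/
def trm (i : Fin 54 × ℤ) (p : ℝ × OnePoint ℝ × ℝ) : ℝ :=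
  th i.1 (TTn (-i.2) p.2.1) p.2.2 * psi (hal i.1) (min p.2.2 (1 / 4)) (p.1 - i.2 - cen i.1)

/-- the new `x`-coordinate. -/
def lam (p : ℝ × OnePoint ℝ × ℝ) : ℝ := p.1 - ∑ᶠ i : Fin 54 × ℤ, trm i p

/-- two points on the same slit at the same height `h > 0`. -/
def SameRun (p q : V) : Prop :=
  q.1.2 = p.1.2 ∧ 0 < p.1.2.2 ∧ ∃ k : Fin 54, ∃ n : ℤ, 0 < ell k ∧
    p.1.2.1 = ((lev k + n : ℝ) : OnePoint ℝ) ∧ |p.1.1 - n - cen k| ≤ hal k ∧ |q.1.1 - n - cen k| ≤ hal k

end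

end Pool.AML
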