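import Pool.Agent.AML.F.F1

/-! [AML-G0] Combinatorics of the runs. For a right end `k` (`0 < ell k`) the indices
`tt^i k`, `i < ell k`, are crossing (`cr`), so `lev (tt^i k) = lev k + i` (`lev_tt`, F1), and every
crossing index `k'` is of the form `tt^i k` for a right end `k` and `i < ell k` (table check). -/

set_option linter.style.longLine false

namespace Pool.AML

theorem G0_tab_le : ∀ k : Fin 54, ell k ≤ 5 := by decide +kernel

theorem G0_tab_cr : ∀ k : Fin 54, ∀ i : Fin 6, i.1 < ell k → cr (tt^[i.1] k) = true := by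
  decide +kernel

theorem G0_tab_ex : ∀ k : Fin 54, cr k = true → ∃ k' : Fin 54, ∃ i : Fin 6, i.1 < ell k' ∧
    tt^[i.1] k' = k := by
  decide +kernel

theorem G0_cr (k : Fin 54) (i : ℕ) (hi : i < ell k) : cr (tt^[i] k) = true := by
  have := G0_tab_le k
  exact G0_tab_cr k ⟨i, by omega⟩ hi

theorem G0_lev (k : Fin 54) (i : ℕ) (hi : i < ell k) : lev (tt^[i] k) = lev k + i := by
  induction i with
  | zero => simp
  | succ i ih =>
    have h1 := ih (by omega)
    rw [Function.iterate_succ_apply', lev_tt _ (G0_cr k i (by omega)), h1]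
    push_cast
    ring

/-- the integer strips met by a run: for `0 < ell k` and `i < ell k` the point `-i` is the centre of
the strip of the crossing level `tt^[i] k`, whose level is `lev k + i`. -/
theorem run_index (k : Fin 54) (hk : 0 < ell k) (i : ℕ) (hi : i < ell k) :
    cr (tt^[i] k) = true ∧ lev (tt^[i] k) = lev k + i :=
  ⟨G0_cr k i hi, G0_lev k i hi⟩

/-- the unit segment of a crossing level is part of a run. -/
theorem run_of_cr (k : Fin 54) (hk : cr k = true) : ∃ k' : Fin 54, ∃ n : ℤ, 0 < ell k' ∧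
    lev k = lev k' + n ∧ ∀ x : ℝ, |x| ≤ 1 / 2 → |x - n - cen k'| ≤ hal k' := by
  obtain ⟨k', i, hi, rfl⟩ := G0_tab_ex k hk
  refine ⟨k', (i.1 : ℤ), by omega, ?_, ?_⟩
  · rw [G0_lev k' i.1 hi]
    push_cast
    rfl
  · intro x hx
    obtain ⟨h1, h2⟩ := abs_le.1 hx
    have h3 : ((i.1 : ℕ) : ℝ) + 1 ≤ (ell k' : ℝ) := by exact_mod_cast hi
    have h4 : (0 : ℝ) ≤ ((i.1 : ℕ) : ℝ) := by positivity
    unfold cen hal
    rw [abs_le]
    push_cast
    constructor <;> linarith

/-- every point of a run lies on the unit segment of a crossing level. -/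
theorem cr_of_run (k : Fin 54) (hk : 0 < ell k) (x : ℝ) (hx : |x - cen k| ≤ hal k) :
    ∃ n : ℤ, ∃ k' : Fin 54, cr k' = true ∧ lev k' + n = lev k ∧ |x - n| ≤ 1 / 2 := by
  obtain ⟨h1, h2⟩ := abs_le.1 hx
  unfold cen hal at h1 h2
  have hx1 : 0 ≤ 1 / 2 - x := by linarith
  have hx2 : 1 / 2 - x ≤ (ell k : ℝ) := by linarith
  have hex : ∃ i : ℕ, i < ell k ∧ (i : ℝ) ≤ 1 / 2 - x ∧ 1 / 2 - x ≤ (i : ℝ) + 1 := by
    by_cases hlt : 1 / 2 - x < (ell k : ℝ)
    · refine ⟨⌊1 / 2 - x⌋₊, ?_, Nat.floor_le hx1, (Nat.lt_floor_add_one _).le⟩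
      rw [Nat.floor_lt hx1]
      exact hlt
    · refine ⟨ell k - 1, by omega, ?_, ?_⟩
      · have h5 : ((ell k - 1 : ℕ) : ℝ) ≤ (ell k : ℝ) := by exact_mod_cast Nat.sub_le _ _
        linarith
      · have h5 : ((ell k - 1 : ℕ) : ℝ) + 1 = (ell k : ℝ) := by
          exact_mod_cast Nat.sub_add_cancel hk
        linarith
  obtain ⟨i, hi, h3, h4⟩ := hex
  refine ⟨-(i : ℤ), tt^[i] k, G0_cr k i hi, ?_, ?_⟩
  · rw [G0_lev k i hi]
    push_cast
    ring
  · rw [abs_le]
    push_cast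
    constructor <;> linarith

theorem slit_iff (x : ℝ) (f : OnePoint ℝ) : slit x f ↔ ∃ k : Fin 54, ∃ n : ℤ, 0 < ell k ∧
    f = ((lev k + n : ℝ) : OnePoint ℝ) ∧ |x - n - cen k| ≤ hal k := by
  constructor
  · rintro ⟨n0, hx, k0, hcr, hf⟩
    obtain ⟨k', n', h1, h2, h3⟩ := run_of_cr k0 hcr
    refine ⟨k', n' + n0, h1, ?_, ?_⟩
    · rw [hf, h2]
      push_cast
      rw [add_assoc]
    · have := h3 (x - n0) hx
      have he : x - ((n' + n0 : ℤ) : ℝ) - cen k' = x - n0 - n' - cen k' := by push_cast; ring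
      rw [he]
      exact this
  · rintro ⟨k, n, h1, h2, h3⟩
    obtain ⟨n1, k1, hcr, h4, h5⟩ := cr_of_run k h1 (x - n) h3
    refine ⟨n1 + n, ?_, k1, hcr, ?_⟩
    · have he : x - ((n1 + n : ℤ) : ℝ) = x - n - n1 := by push_cast; ring
      rw [he]
      exact h5
    · rw [h2, ← h4]
      push_cast
      rw [add_assoc]

end Pool.AML
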