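import Pool.Agent.AML.G.Defs

/-! [AML-G1] One variable facts on `psi m δ z` (`z` clamped to `[-q, q]`,
`q = max 0 (m (m + δ - |z|) / δ)`), for `0 ≤ m`, `0 < δ`. -/

set_option linter.style.longLine false

namespace Pool.AML

theorem G1_zero (Q z : ℝ) (hQ : Q = 0) : max (-Q) (min z Q) = 0 := by
  rw [hQ, neg_zero]
  exact max_eq_left (min_le_right _ _)

theorem G1_odd (m δ z : ℝ) : psi m δ (-z) = -psi m δ z := by
  unfold psi
  rw [abs_neg]
  set Q := max 0 (m * (m + δ - |z|) / δ) with hQ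
  have hQ0 : 0 ≤ Q := le_max_left _ _
  rcases le_total z Q with h1 | h1
  · rcases le_total (-Q) z with h2 | h2
    · rw [min_eq_left (by linarith : -z ≤ Q), max_eq_right (by linarith : -Q ≤ -z),
        min_eq_left h1, max_eq_right h2]
    · rw [min_eq_right (by linarith : Q ≤ -z), max_eq_right (by linarith : -Q ≤ Q),
        min_eq_left h1, max_eq_left h2, neg_neg]
  · rw [min_eq_left (by linarith : -z ≤ Q), max_eq_left (by linarith : -z ≤ -Q),
      min_eq_right h1, max_eq_right (by linarith : -Q ≤ Q)]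

theorem G1_Q_anti {m δ r r' : ℝ} (hm : 0 ≤ m) (hδ : 0 < δ) (h : r ≤ r') :
    max 0 (m * (m + δ - r') / δ) ≤ max 0 (m * (m + δ - r) / δ) := by
  apply max_le_max le_rfl
  apply div_le_div_of_nonneg_right _ hδ.le
  apply mul_le_mul_of_nonneg_left _ hm
  linarith

theorem G1_pos {m δ z : ℝ} (hz : 0 ≤ z) :
    psi m δ z = min z (max 0 (m * (m + δ - z) / δ)) := by
  unfold psi
  rw [abs_of_nonneg hz]
  apply max_eq_right
  have h1 : (0 : ℝ) ≤ max 0 (m * (m + δ - z) / δ) := le_max_left _ _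
  have h2 : 0 ≤ min z (max 0 (m * (m + δ - z) / δ)) := le_min hz h1
  linarith

theorem G1_key_pos {m δ z z' : ℝ} (hm : 0 ≤ m) (hδ : 0 < δ) (hz : 0 ≤ z) (hzz : z ≤ z') :
    psi m δ z' - psi m δ z ≤ z' - z ∧
      (z < z' → psi m δ z' - psi m δ z = z' - z → psi m δ z = z ∧ psi m δ z' = z') := by
  rw [G1_pos hz, G1_pos (hz.trans hzz)]
  have hanti := G1_Q_anti hm hδ hzz
  have h1 := min_le_left z' (max 0 (m * (m + δ - z') / δ))
  have h2 := min_le_right z' (max 0 (m * (m + δ - z') / δ))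
  rcases le_or_gt z (max 0 (m * (m + δ - z) / δ)) with h | h
  · rw [min_eq_left h]
    exact ⟨by linarith, fun _ h3 => ⟨rfl, by linarith⟩⟩
  · rw [min_eq_right h.le]
    exact ⟨by linarith, fun h3 h4 => by linarith⟩

theorem G1_key {m δ z z' : ℝ} (hm : 0 ≤ m) (hδ : 0 < δ) (hzz : z ≤ z') :
    psi m δ z' - psi m δ z ≤ z' - z ∧
      (z < z' → psi m δ z' - psi m δ z = z' - z → psi m δ z = z ∧ psi m δ z' = z') := by
  rcases le_total 0 z with hz | hz
  · exact G1_key_pos hm hδ hz hzz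
  · rcases le_total 0 z' with hz' | hz'
    · have h1 : psi m δ z' ≤ z' := by
        rw [G1_pos hz']
        exact min_le_left _ _
      have h2 : psi m δ (-z) ≤ -z := by
        rw [G1_pos (by linarith)]
        exact min_le_left _ _
      rw [G1_odd] at h2
      exact ⟨by linarith, fun _ h3 => ⟨by linarith, by linarith⟩⟩
    · have h := G1_key_pos (z := -z') (z' := -z) hm hδ (by linarith) (by linarith)
      rw [G1_odd, G1_odd] at h
      refine ⟨by linarith [h.1], fun h3 h4 => ?_⟩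
      obtain ⟨h5, h6⟩ := h.2 (by linarith) (by linarith)
      exact ⟨by linarith, by linarith⟩

theorem psi_zero_left (δ z : ℝ) : psi 0 δ z = 0 := by
  unfold psi
  apply G1_zero
  simp

theorem psi_of_le {m δ z : ℝ} (hm : 0 ≤ m) (hδ : 0 < δ) (hz : |z| ≤ m) : psi m δ z = z := by
  unfold psi
  have h1 : m ≤ max 0 (m * (m + δ - |z|) / δ) := by
    apply le_max_of_le_right
    rw [le_div_iff₀ hδ]
    apply mul_le_mul_of_nonneg_left _ hm
    linarith
  have h2 := abs_le.1 hz
  rw [min_eq_left (by linarith [h2.2]), max_eq_right (by linarith [h2.1])]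

theorem psi_of_ge {m δ z : ℝ} (hm : 0 ≤ m) (hδ : 0 < δ) (hz : m + δ ≤ |z|) : psi m δ z = 0 := by
  unfold psi
  apply G1_zero
  apply max_eq_left
  apply div_nonpos_of_nonpos_of_nonneg _ hδ.le
  apply mul_nonpos_of_nonneg_of_nonpos hm
  linarith

theorem abs_psi_le {m δ z : ℝ} (hm : 0 ≤ m) (hδ : 0 < δ) : |psi m δ z| ≤ m := by
  rcases le_total |z| m with h | h
  · rw [psi_of_le hm hδ h]
    exact h
  · unfold psi
    have h1 : max 0 (m * (m + δ - |z|) / δ) ≤ m := by
      apply max_le hm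
      rw [div_le_iff₀ hδ]
      apply mul_le_mul_of_nonneg_left _ hm
      linarith
    have h0 : (0 : ℝ) ≤ max 0 (m * (m + δ - |z|) / δ) := le_max_left _ _
    rw [abs_le]
    constructor
    · exact le_trans (by linarith) (le_max_left _ _)
    · exact max_le (by linarith) ((min_le_right _ _).trans h1)

/-- `z ↦ z - t ψ(z)` is monotone for `0 ≤ t ≤ 1`. -/
theorem psi_mono {m δ t : ℝ} (hm : 0 ≤ m) (hδ : 0 < δ) (ht : 0 ≤ t) (ht1 : t ≤ 1) :
    Monotone (fun z => z - t * psi m δ z) := by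
  intro z z' hzz
  have h := (G1_key hm hδ hzz).1
  change z - t * psi m δ z ≤ z' - t * psi m δ z'
  rcases le_total (psi m δ z' - psi m δ z) 0 with h0 | h0
  · have := mul_nonneg ht (neg_nonneg.2 h0)
    nlinarith
  · have := mul_le_mul_of_nonneg_right ht1 h0
    nlinarith

/-- equality only on the slit, and only for `t = 1`. -/
theorem psi_inj {m δ t : ℝ} (hm : 0 ≤ m) (hδ : 0 < δ) (ht : 0 ≤ t) (ht1 : t ≤ 1) {z z' : ℝ}
    (h : z - t * psi m δ z = z' - t * psi m δ z') : z = z' ∨ (t = 1 ∧ |z| ≤ m ∧ |z'| ≤ m) := by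
  have key : ∀ z z' : ℝ, z < z' → z - t * psi m δ z = z' - t * psi m δ z' →
      t = 1 ∧ |z| ≤ m ∧ |z'| ≤ m := by
    intro z z' hlt h
    obtain ⟨h1, h2⟩ := G1_key hm hδ hlt.le
    have h3 : t * (psi m δ z' - psi m δ z) = z' - z := by linarith
    have h4 : 0 < t * (psi m δ z' - psi m δ z) := by linarith
    have h5 : 0 < psi m δ z' - psi m δ z := by
      by_contra hn
      push Not at hn
      have := mul_nonpos_of_nonneg_of_nonpos ht hn
      linarith
    have h6 : t * (psi m δ z' - psi m δ z) ≤ 1 * (psi m δ z' - psi m δ z) :=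
      mul_le_mul_of_nonneg_right ht1 h5.le
    have h7 : psi m δ z' - psi m δ z = z' - z := by linarith
    obtain ⟨h8, h9⟩ := h2 hlt h7
    refine ⟨?_, ?_, ?_⟩
    · have h10 : (1 - t) * (psi m δ z' - psi m δ z) = 0 := by linarith
      rcases mul_eq_zero.1 h10 with h11 | h11
      · linarith
      · linarith
    · rw [← h8]
      exact abs_psi_le hm hδ
    · rw [← h9]
      exact abs_psi_le hm hδ
  rcases lt_trichotomy z z' with hlt | heq | hgt
  · exact Or.inr (key z z' hlt h)
  · exact Or.inl heq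
  · obtain ⟨h1, h2, h3⟩ := key z' z hgt h.symm
    exact Or.inr ⟨h1, h3, h2⟩

theorem continuousOn_psi (m : ℝ) :
    ContinuousOn (fun p : ℝ × ℝ => psi m p.1 p.2) {p | 0 < p.1} := by
  have hq : ContinuousOn (fun p : ℝ × ℝ => max 0 (m * (m + p.1 - |p.2|) / p.1)) {p | 0 < p.1} := by
    apply ContinuousOn.sup continuousOn_const
    apply ContinuousOn.div
    · fun_prop
    · exact continuousOn_fst
    · intro p hp
      exact (ne_of_gt hp)
  exact hq.neg.sup (continuousOn_snd.inf hq)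

end Pool.AML
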