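import Pool.Agent.AML.F.F2
import Pool.Agent.AML.G.G1
import Pool.Agent.AML.C.C1

/-! [AML-G2] At every level `f` at most one run is active: if `th k (TTn (-n) f) h ≠ 0` then
`f = y` is real, `h > 0` and `|y - n - lev k| < 1/200` (because `min h 1 ≤ 1`); for two such pairs
`(k, n)`, `(k', n')` with `0 < ell k`, `0 < ell k'` one has `|lev k - lev k' - (n' - n)| < 1/100`, so
`lev_sep` (F2) gives `k = k'`, `n = n'`. Hence the finsum in `lam` has at most one non zero term
(`trm` vanishes if `ell k = 0` because `hal k = 0`, `psi_zero_left`): `finsum_eq_single`. -/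

set_option linter.style.longLine false

open Set

namespace Pool.AML

theorem G2_th_inf (k : Fin 54) (h : ℝ) : th k OnePoint.infty h = 0 := rfl

theorem G2_th_coe (k : Fin 54) (y h : ℝ) : th k (y : OnePoint ℝ) h =
    if h ≤ 0 then 0 else max 0 (1 - |y - lev k| / (1 / 200 * min h 1)) := rfl

theorem th_nonneg (k : Fin 54) (f : OnePoint ℝ) (h : ℝ) : 0 ≤ th k f h := by
  induction f using OnePoint.rec with
  | infty => rw [G2_th_inf]
  | coe y =>
    rw [G2_th_coe]
    split_ifs
    · exact le_refl _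
    · exact le_max_left _ _

theorem G2_den {h : ℝ} (hh : 0 < h) : 0 < 1 / 200 * min h 1 := by
  have : 0 < min h 1 := lt_min hh one_pos
  positivity

theorem th_le_one (k : Fin 54) (f : OnePoint ℝ) (h : ℝ) : th k f h ≤ 1 := by
  induction f using OnePoint.rec with
  | infty => rw [G2_th_inf]; norm_num
  | coe y =>
    rw [G2_th_coe]
    split_ifs with hh
    · norm_num
    · push Not at hh
      apply max_le (by norm_num)
      have := div_nonneg (abs_nonneg (y - lev k)) (G2_den hh).le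
      linarith

theorem th_eq_one_iff (k : Fin 54) (f : OnePoint ℝ) {h : ℝ} (hh : 0 < h) :
    th k f h = 1 ↔ f = ((lev k : ℝ) : OnePoint ℝ) := by
  induction f using OnePoint.rec with
  | infty =>
    rw [G2_th_inf]
    constructor
    · intro hc; norm_num at hc
    · intro hc; exact absurd hc (OnePoint.infty_ne_coe _)
  | coe y =>
    rw [G2_th_coe, if_neg (not_le.2 hh), OnePoint.coe_eq_coe]
    constructor
    · intro hc
      have h1 : |y - lev k| / (1 / 200 * min h 1) = 0 := by
        by_contra hne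
        have h2 : 0 < |y - lev k| / (1 / 200 * min h 1) :=
          lt_of_le_of_ne (div_nonneg (abs_nonneg _) (G2_den hh).le) (Ne.symm hne)
        have h3 : max 0 (1 - |y - lev k| / (1 / 200 * min h 1)) < 1 :=
          max_lt (by norm_num) (by linarith)
        linarith
      rw [div_eq_zero_iff] at h1
      rcases h1 with h1 | h1
      · have := abs_eq_zero.1 h1
        linarith
      · exact absurd h1 (G2_den hh).ne'
    · intro hc
      rw [hc, sub_self, abs_zero, zero_div, sub_zero]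
      norm_num

theorem th_of_nonpos (k : Fin 54) (f : OnePoint ℝ) {h : ℝ} (hh : h ≤ 0) : th k f h = 0 := by
  induction f using OnePoint.rec with
  | infty => rw [G2_th_inf]
  | coe y => rw [G2_th_coe, if_pos hh]

theorem G2_close {k : Fin 54} {y h : ℝ} (h1 : th k (y : OnePoint ℝ) h ≠ 0) :
    0 < h ∧ |y - lev k| < 1 / 200 := by
  rw [G2_th_coe] at h1
  split_ifs at h1 with hh
  · exact absurd rfl h1
  · push Not at hh
    refine ⟨hh, ?_⟩
    have h2 : 0 < 1 - |y - lev k| / (1 / 200 * min h 1) := by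
      by_contra hc
      push Not at hc
      exact h1 (max_eq_left hc)
    have h3 : |y - lev k| / (1 / 200 * min h 1) < 1 := by linarith
    rw [div_lt_one (G2_den hh)] at h3
    have h4 : min h 1 ≤ 1 := min_le_right _ _
    linarith

theorem active_unique {k k' : Fin 54} {n n' : ℤ} {f : OnePoint ℝ} {h : ℝ} (hk : 0 < ell k)
    (hk' : 0 < ell k') (h1 : th k (TTn (-n) f) h ≠ 0) (h2 : th k' (TTn (-n') f) h ≠ 0) :
    k = k' ∧ n = n' := by
  induction f using OnePoint.rec with
  | infty => rw [TTn_infty, G2_th_inf] at h1; exact absurd rfl h1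
  | coe y =>
    rw [TTn_coe] at h1 h2
    have c1 := (G2_close h1).2
    have c2 := (G2_close h2).2
    rw [abs_lt] at c1 c2
    push_cast at c1 c2
    have h3 : |lev k - lev k' - ((n' - n : ℤ) : ℝ)| < 1 / 100 := by
      push_cast
      rw [abs_lt]
      constructor
      · linarith [c1.1, c1.2, c2.1, c2.2]
      · linarith [c1.1, c1.2, c2.1, c2.2]
    have h4 := lev_sep k k' (n' - n) hk hk' h3
    exact ⟨h4.1, by linarith [h4.2]⟩

theorem G2_hal_zero {k : Fin 54} (hk : ell k = 0) : hal k = 0 := by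
  unfold hal; rw [hk]; simp

theorem G2_trm_zero {i : Fin 54 × ℤ} {x h : ℝ} {f : OnePoint ℝ}
    (hi : ell i.1 = 0 ∨ th i.1 (TTn (-i.2) f) h = 0) : trm i (x, f, h) = 0 := by
  unfold trm
  rcases hi with hi | hi
  · rw [G2_hal_zero hi, psi_zero_left, mul_zero]
  · simp only [hi, zero_mul]

theorem G2_lam_active {k : Fin 54} {n : ℤ} {f : OnePoint ℝ} {h : ℝ} (hk : 0 < ell k)
    (h1 : th k (TTn (-n) f) h ≠ 0) (x : ℝ) : lam (x, f, h) =
      x - th k (TTn (-n) f) h * psi (hal k) (min h (1 / 4)) (x - n - cen k) := by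
  unfold lam
  have e : ∑ᶠ i : Fin 54 × ℤ, trm i (x, f, h) = trm (k, n) (x, f, h) := by
    apply finsum_eq_single
    rintro ⟨k', n'⟩ hne
    apply G2_trm_zero
    by_cases he : ell k' = 0
    · left; exact he
    · right
      by_contra hc
      have := active_unique hk (Nat.pos_of_ne_zero he) h1 hc
      apply hne
      rw [this.1, this.2]
  rw [e]
  rfl

theorem G2_hal_nonneg (k : Fin 54) : 0 ≤ hal k := by unfold hal; positivity

theorem G2_ell_le : ∀ k : Fin 54, ell k ≤ 5 := by decide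

theorem G2_hal_le (k : Fin 54) : hal k ≤ 5 / 2 := by
  unfold hal
  have : (ell k : ℝ) ≤ 5 := by exact_mod_cast G2_ell_le k
  linarith

/-- either nothing is active, or `lam` is given by one term. -/
theorem lam_eq (f : OnePoint ℝ) (h : ℝ) : (∀ x : ℝ, lam (x, f, h) = x) ∨
    ∃ k : Fin 54, ∃ n : ℤ, 0 < ell k ∧ 0 < h ∧ 0 < th k (TTn (-n) f) h ∧ ∀ x : ℝ, lam (x, f, h) =
      x - th k (TTn (-n) f) h * psi (hal k) (min h (1 / 4)) (x - n - cen k) := by
  by_cases hex : ∃ k : Fin 54, ∃ n : ℤ, 0 < ell k ∧ th k (TTn (-n) f) h ≠ 0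
  · obtain ⟨k, n, hk, h1⟩ := hex
    right
    refine ⟨k, n, hk, ?_, lt_of_le_of_ne (th_nonneg _ _ _) (Ne.symm h1), G2_lam_active hk h1⟩
    by_contra hc
    push Not at hc
    exact h1 (th_of_nonpos k _ hc)
  · left
    push Not at hex
    intro x
    unfold lam
    have e : ∀ i : Fin 54 × ℤ, trm i (x, f, h) = 0 := by
      rintro ⟨k, n⟩
      apply G2_trm_zero
      by_cases he : ell k = 0
      · left; exact he
      · right; exact hex k n (Nat.pos_of_ne_zero he)
    rw [finsum_congr e, finsum_zero, sub_zero]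

theorem lam_of_nonpos (x : ℝ) (f : OnePoint ℝ) {h : ℝ} (hh : h ≤ 0) : lam (x, f, h) = x := by
  rcases lam_eq f h with h1 | ⟨k, n, _, h2, _⟩
  · exact h1 x
  · linarith

theorem G2_dpos {h : ℝ} (hh : 0 < h) : 0 < min h (1 / 4) := lt_min hh (by norm_num)

theorem lam_bound (x : ℝ) (f : OnePoint ℝ) (h : ℝ) : |lam (x, f, h) - x| ≤ 5 / 2 := by
  rcases lam_eq f h with h1 | ⟨k, n, hk, hh, ht, h1⟩
  · rw [h1 x, sub_self, abs_zero]; norm_num
  · rw [h1 x]
    have e : x - th k (TTn (-n) f) h * psi (hal k) (min h (1 / 4)) (x - n - cen k) - x =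
        -(th k (TTn (-n) f) h * psi (hal k) (min h (1 / 4)) (x - n - cen k)) := by ring
    rw [e, abs_neg, abs_mul, abs_of_pos ht]
    have h2 := abs_psi_le (z := x - n - cen k) (G2_hal_nonneg k) (G2_dpos hh)
    have h3 := th_le_one k (TTn (-n) f) h
    calc th k (TTn (-n) f) h * |psi (hal k) (min h (1 / 4)) (x - n - cen k)|
        ≤ 1 * hal k := mul_le_mul h3 h2 (abs_nonneg _) (by norm_num)
      _ ≤ 5 / 2 := by rw [one_mul]; exact G2_hal_le k

theorem lam_mono (f : OnePoint ℝ) (h : ℝ) : Monotone (fun x => lam (x, f, h)) := by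
  rcases lam_eq f h with h1 | ⟨k, n, hk, hh, ht, h1⟩
  · intro a b hab
    show lam (a, f, h) ≤ lam (b, f, h)
    rw [h1 a, h1 b]; exact hab
  · intro a b hab
    show lam (a, f, h) ≤ lam (b, f, h)
    rw [h1 a, h1 b]
    have hm := psi_mono (m := hal k) (δ := min h (1 / 4)) (G2_hal_nonneg k) (G2_dpos hh)
      ht.le (th_le_one k (TTn (-n) f) h)
    have h2 := hm (show a - n - cen k ≤ b - n - cen k by linarith)
    simp only at h2
    linarith

theorem lam_inj (f : OnePoint ℝ) (h : ℝ) {x x' : ℝ} (hx : lam (x, f, h) = lam (x', f, h)) :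
    x = x' ∨ (0 < h ∧ ∃ k : Fin 54, ∃ n : ℤ, 0 < ell k ∧ f = ((lev k + n : ℝ) : OnePoint ℝ) ∧
      |x - n - cen k| ≤ hal k ∧ |x' - n - cen k| ≤ hal k) := by
  rcases lam_eq f h with h1 | ⟨k, n, hk, hh, ht, h1⟩
  · left; rw [h1 x, h1 x'] at hx; exact hx
  · rw [h1 x, h1 x'] at hx
    have hm := psi_inj (m := hal k) (δ := min h (1 / 4)) (t := th k (TTn (-n) f) h)
      (z := x - n - cen k) (z' := x' - n - cen k) (G2_hal_nonneg k) (G2_dpos hh)
      ht.le (th_le_one k (TTn (-n) f) h) (by linarith)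
    rcases hm with hm | ⟨h2, h3, h4⟩
    · left; linarith
    · right
      refine ⟨hh, k, n, hk, ?_, h3, h4⟩
      rw [th_eq_one_iff k _ hh] at h2
      have h5 := congrArg (TTn n) h2
      rw [TTn_add, TTn_coe, add_neg_cancel, TTn_zero] at h5
      exact h5

/-- on a slit (at height `h > 0`) `lam` is constant, equal to the centre. -/
theorem lam_slit {k : Fin 54} {n : ℤ} (hk : 0 < ell k) {h : ℝ} (hh : 0 < h) {x : ℝ}
    (hx : |x - n - cen k| ≤ hal k) : lam (x, ((lev k + n : ℝ) : OnePoint ℝ), h) = n + cen k := by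
  have e : TTn (-n) ((lev k + n : ℝ) : OnePoint ℝ) = ((lev k : ℝ) : OnePoint ℝ) := by
    rw [TTn_coe]
    congr 1
    push_cast
    ring
  have h1 : th k (TTn (-n) ((lev k + n : ℝ) : OnePoint ℝ)) h = 1 := by
    rw [th_eq_one_iff k _ hh]
    exact e
  rw [G2_lam_active hk (by rw [h1]; norm_num) x, h1, psi_of_le (G2_hal_nonneg k) (G2_dpos hh) hx]
  ring

/-- translation equivariance. -/
theorem lam_TT (x : ℝ) (f : OnePoint ℝ) (h : ℝ) : lam (x + 1, TT f, h) = lam (x, f, h) + 1 := by
  unfold lam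
  have e : ∑ᶠ i : Fin 54 × ℤ, trm i (x + 1, TT f, h) = ∑ᶠ i : Fin 54 × ℤ, trm i (x, f, h) := by
    let s : Fin 54 × ℤ ≃ Fin 54 × ℤ := Equiv.prodCongr (Equiv.refl _) (Equiv.subRight 1)
    rw [← finsum_comp_equiv s (f := fun i => trm i (x, f, h))]
    apply finsum_congr
    rintro ⟨k, n⟩
    have hs : s (k, n) = (k, n - 1) := rfl
    rw [hs]
    unfold trm
    simp only
    have e1 : TTn (-n) (TT f) = TTn (-(n - 1)) f := by
      rw [← TTn_one f, TTn_add]
      congr 1
      ring
    have e2 : x + 1 - (n : ℝ) - cen k = x - ((n - 1 : ℤ) : ℝ) - cen k := by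
      push_cast
      ring
    rw [e1, e2]
  rw [e]
  ring

end Pool.AML
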