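import Pool.Agent.AML.G.Lam
import Pool.Agent.AML.G.G0

/-! [AML-G3] Continuity of `Lam : V → V`.

It suffices that `p ↦ lam p.1` is continuous on `V`, i.e. (`continuous_finsum`) that every
`p ↦ trm i p.1` is continuous on `V` and that the supports are locally finite (`trm i p ≠ 0` forces
`|p.1 - i.2 - cen i.1| ≤ 3` because `hal ≤ 5/2`, `min h (1/4) ≤ 1/4`; `i.1` has 54 values).
Continuity of `trm (k, n)` at `p₀ = (x₀, f₀, h₀) ∈ V`:
* `h₀ > 0`: product of continuous functions (`th` is continuous on `{h > 0}`: at `f₀ = ∞` it vanishes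
  in a neighbourhood; `continuousOn_psi`);
* `h₀ = 0`: the value is `0`. If `TTn (-n) f₀ ≠ lev k` then `th` vanishes near `(f₀, 0)`
  (`|y - lev k| ≥ c > 0` nearby and `1/200 * min h 1 ≤ h < c`, or `f₀ = ∞`).
  If `f₀ = lev k + n` and `0 < ell k` then `p₀ ∈ V` and `slit_iff` give `|x₀ - n - cen k| > hal k`, so
  `psi` vanishes near `p₀` (`psi_of_ge`); if `ell k = 0` the term is zero. -/

set_option linter.style.longLine false

open Topology Set

namespace Pool.AML

private theorem g3_cx : Continuous (fun p : V => p.1.1) :=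
  continuous_fst.comp continuous_subtype_val

private theorem g3_cf : Continuous (fun p : V => p.1.2.1) :=
  (continuous_fst.comp continuous_snd).comp continuous_subtype_val

private theorem g3_ch : Continuous (fun p : V => p.1.2.2) :=
  (continuous_snd.comp continuous_snd).comp continuous_subtype_val

private theorem g3_th_zero (k : Fin 54) (y h : ℝ) (hy : 1 / 200 * min h 1 ≤ |y - lev k|) :
    th k (y : OnePoint ℝ) h = 0 := by
  change (if h ≤ 0 then (0 : ℝ) else max 0 (1 - |y - lev k| / (1 / 200 * min h 1))) = 0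
  split_ifs with hh
  · rfl
  · push Not at hh
    have hm : 0 < 1 / 200 * min h 1 := mul_pos (by norm_num) (lt_min hh one_pos)
    refine max_eq_left ?_
    have : 1 ≤ |y - lev k| / (1 / 200 * min h 1) := (one_le_div hm).2 hy
    linarith

private theorem g3_th_infty (k : Fin 54) (h : ℝ) : th k OnePoint.infty h = 0 := rfl

private theorem g3_ell (k : Fin 54) : ell k ≤ 5 := by
  revert k; decide

private theorem g3_zero_infty (k : Fin 54) : ∀ᶠ f in 𝓝 (OnePoint.infty : OnePoint ℝ),
    ∀ h, th k f h = 0 := by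
  have hopen : IsOpen (((↑) : ℝ → OnePoint ℝ) '' (Metric.closedBall (lev k) (1 / 200)))ᶜ :=
    OnePoint.isOpen_compl_image_coe.2 ⟨Metric.isClosed_closedBall, isCompact_closedBall _ _⟩
  have hmem : (((↑) : ℝ → OnePoint ℝ) '' (Metric.closedBall (lev k) (1 / 200)))ᶜ ∈
      𝓝 (OnePoint.infty : OnePoint ℝ) := hopen.mem_nhds (by simp)
  filter_upwards [hmem] with f hf h
  induction f using OnePoint.rec with
  | infty => exact g3_th_infty k h
  | coe y =>
    refine g3_th_zero k y h ?_
    have hy : 1 / 200 < |y - lev k| := by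
      by_contra hcon
      push Not at hcon
      exact hf ⟨y, by rw [Metric.mem_closedBall, Real.dist_eq]; exact hcon, rfl⟩
    have : min h 1 ≤ 1 := min_le_right _ _
    linarith

private theorem g3_ev_zero (k : Fin 54) (n : ℤ) (p₀ : V) (h0 : p₀.1.2.2 = 0) :
    ∀ᶠ p : V in 𝓝 p₀, trm (k, n) p.1 = 0 := by
  have hf : Filter.Tendsto (fun p : V => TTn (-n) p.1.2.1) (𝓝 p₀) (𝓝 (TTn (-n) p₀.1.2.1)) :=
    ((continuous_TTn (-n)).comp g3_cf).tendsto p₀
  have hh : Filter.Tendsto (fun p : V => p.1.2.2) (𝓝 p₀) (𝓝 0) := by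
    have := g3_ch.tendsto p₀
    rwa [h0] at this
  have hth : ∀ p : V, th k (TTn (-n) p.1.2.1) p.1.2.2 = 0 → trm (k, n) p.1 = 0 := by
    intro p hp
    change th k (TTn (-n) p.1.2.1) p.1.2.2 * _ = 0
    rw [hp, zero_mul]
  have hpsi : ∀ p : V, (0 < p.1.2.2 → psi (hal k) (min p.1.2.2 (1 / 4)) (p.1.1 - n - cen k) = 0) →
      trm (k, n) p.1 = 0 := by
    intro p hp
    by_cases hpos : 0 < p.1.2.2
    · change _ * psi (hal k) (min p.1.2.2 (1 / 4)) (p.1.1 - n - cen k) = 0
      rw [hp hpos, mul_zero]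
    · exact hth p (th_of_nonpos _ _ (not_lt.1 hpos))
  by_cases hinf : TTn (-n) p₀.1.2.1 = OnePoint.infty
  · rw [hinf] at hf
    filter_upwards [hf.eventually (g3_zero_infty k)] with p hp
    exact hth p (hp _)
  obtain ⟨y₀, hy₀⟩ := OnePoint.ne_infty_iff_exists.1 hinf
  by_cases hne : y₀ = lev k
  · -- on the level
    rcases Nat.eq_zero_or_pos (ell k) with hk | hk
    · refine Filter.Eventually.of_forall fun p => hpsi p fun _ => ?_
      have : hal k = 0 := by unfold hal; rw [hk]; simp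
      rw [this]; exact psi_zero_left _ _
    · have hf₀ : p₀.1.2.1 = ((lev k + n : ℝ) : OnePoint ℝ) := by
        have h1 : TTn n (TTn (-n) p₀.1.2.1) = TTn n (y₀ : OnePoint ℝ) := by rw [hy₀]
        rw [TTn_add, add_neg_cancel, TTn_zero, TTn_coe, hne] at h1
        exact h1
      have hgt : hal k < |p₀.1.1 - n - cen k| := by
        by_contra hcon
        push Not at hcon
        exact p₀.2.2 h0 ((slit_iff _ _).2 ⟨k, n, hk, hf₀, hcon⟩)
      set ε : ℝ := (|p₀.1.1 - n - cen k| - hal k) / 2 with hε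
      have hε0 : 0 < ε := by rw [hε]; linarith
      have hz : Filter.Tendsto (fun p : V => |p.1.1 - n - cen k|) (𝓝 p₀)
          (𝓝 |p₀.1.1 - n - cen k|) :=
        (((g3_cx.sub continuous_const).sub continuous_const).abs).tendsto p₀
      have e1 : ∀ᶠ p : V in 𝓝 p₀, hal k + ε < |p.1.1 - n - cen k| :=
        hz.eventually (lt_mem_nhds (by rw [hε]; linarith))
      have e2 : ∀ᶠ p : V in 𝓝 p₀, p.1.2.2 < ε := hh.eventually (gt_mem_nhds hε0)
      filter_upwards [e1, e2] with p h1 h2
      refine hpsi p fun hpos => ?_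
      have hm : 0 ≤ hal k := by unfold hal; positivity
      refine psi_of_ge hm (lt_min hpos (by norm_num)) ?_
      have : min p.1.2.2 (1 / 4) ≤ p.1.2.2 := min_le_left _ _
      linarith
  · -- off the level
    set c : ℝ := |y₀ - lev k| / 2 with hc
    have hc0 : 0 < c := by
      rw [hc]; exact half_pos (abs_pos.2 (sub_ne_zero.2 hne))
    have hball : ((↑) : ℝ → OnePoint ℝ) '' (Metric.ball y₀ c) ∈ 𝓝 (y₀ : OnePoint ℝ) :=
      OnePoint.isOpenEmbedding_coe.isOpenMap.image_mem_nhds (Metric.ball_mem_nhds _ hc0)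
    rw [← hy₀] at hf
    have e1 : ∀ᶠ p : V in 𝓝 p₀, TTn (-n) p.1.2.1 ∈ ((↑) : ℝ → OnePoint ℝ) '' (Metric.ball y₀ c) :=
      hf hball
    have e2 : ∀ᶠ p : V in 𝓝 p₀, p.1.2.2 < c := hh.eventually (gt_mem_nhds hc0)
    filter_upwards [e1, e2] with p h1 h2
    refine hth p ?_
    obtain ⟨y, hy, hyp⟩ := h1
    rw [← hyp]
    refine g3_th_zero k y _ ?_
    rw [Metric.mem_ball, Real.dist_eq] at hy
    have h3 : |y₀ - lev k| ≤ |y - y₀| + |y - lev k| := by
      have := abs_sub_abs_le_abs_sub (y₀ - lev k) (y - lev k)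
      have h4 : |y₀ - lev k - (y - lev k)| = |y - y₀| := by
        rw [show y₀ - lev k - (y - lev k) = -(y - y₀) by ring, abs_neg]
      linarith
    have h5 : |y₀ - lev k| = 2 * c := by rw [hc]; ring
    have h6 : min p.1.2.2 1 ≤ p.1.2.2 := min_le_left _ _
    linarith

private theorem g3_th_cont (k : Fin 54) (y₀ h₀ : ℝ) (hh : 0 < h₀) :
    ContinuousAt (fun q : OnePoint ℝ × ℝ => th k q.1 q.2) ((y₀ : OnePoint ℝ), h₀) := by
  have hemb : IsOpenEmbedding (Prod.map ((↑) : ℝ → OnePoint ℝ) (id : ℝ → ℝ)) :=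
    OnePoint.isOpenEmbedding_coe.prodMap IsOpenEmbedding.id
  have h1 : ContinuousAt ((fun q : OnePoint ℝ × ℝ => th k q.1 q.2) ∘
      (Prod.map ((↑) : ℝ → OnePoint ℝ) (id : ℝ → ℝ))) (y₀, h₀) := by
    have h2 : ContinuousAt (fun q : ℝ × ℝ => max 0 (1 - |q.1 - lev k| / (1 / 200 * min q.2 1)))
        (y₀, h₀) := by
      have hd : ContinuousAt (fun q : ℝ × ℝ => |q.1 - lev k| / (1 / 200 * min q.2 1)) (y₀, h₀) := by
        refine ContinuousAt.div ?_ ?_ ?_
        · exact ((continuous_fst.sub continuous_const).abs).continuousAt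
        · exact (continuous_const.mul (continuous_snd.min continuous_const)).continuousAt
        · have : 0 < 1 / 200 * min h₀ 1 := mul_pos (by norm_num) (lt_min hh one_pos)
          exact this.ne'
      exact continuousAt_const.max (continuousAt_const.sub hd)
    refine h2.congr ?_
    have h3 : ∀ᶠ q : ℝ × ℝ in 𝓝 (y₀, h₀), 0 < q.2 :=
      (continuous_snd.tendsto (y₀, h₀)).eventually (lt_mem_nhds hh)
    filter_upwards [h3] with q hq
    change _ = (if q.2 ≤ 0 then (0 : ℝ) else max 0 (1 - |q.1 - lev k| / (1 / 200 * min q.2 1)))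
    rw [if_neg (not_le.2 hq)]
  exact hemb.continuousAt_iff.1 h1

theorem continuous_trm (i : Fin 54 × ℤ) : Continuous (fun p : V => trm i p.1) := by
  obtain ⟨k, n⟩ := i
  rw [continuous_iff_continuousAt]
  intro p₀
  have hft : Filter.Tendsto (fun p : V => TTn (-n) p.1.2.1) (𝓝 p₀) (𝓝 (TTn (-n) p₀.1.2.1)) :=
    ((continuous_TTn (-n)).comp g3_cf).tendsto p₀
  rcases lt_or_eq_of_le p₀.2.1 with hpos | h0
  · by_cases hinf : TTn (-n) p₀.1.2.1 = OnePoint.infty
    · rw [hinf] at hft
      have h1 : (fun _ : V => (0 : ℝ)) =ᶠ[𝓝 p₀] (fun p : V => trm (k, n) p.1) := by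
        filter_upwards [hft.eventually (g3_zero_infty k)] with p hp
        change (0 : ℝ) = th k (TTn (-n) p.1.2.1) p.1.2.2 * _
        rw [hp, zero_mul]
      exact continuousAt_const.congr h1
    · obtain ⟨y₀, hy₀⟩ := OnePoint.ne_infty_iff_exists.1 hinf
      have h1 : ContinuousAt (fun p : V => th k (TTn (-n) p.1.2.1) p.1.2.2) p₀ := by
        have h2 : ContinuousAt (fun p : V => (TTn (-n) p.1.2.1, p.1.2.2)) p₀ :=
          (((continuous_TTn (-n)).comp g3_cf).prodMk g3_ch).continuousAt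
        have h3 := g3_th_cont k y₀ p₀.1.2.2 hpos
        rw [hy₀] at h3
        exact ContinuousAt.comp (f := fun p : V => (TTn (-n) p.1.2.1, p.1.2.2)) (x := p₀)
          (g := fun q : OnePoint ℝ × ℝ => th k q.1 q.2) h3 h2
      have h2 : ContinuousAt (fun p : V => psi (hal k) (min p.1.2.2 (1 / 4)) (p.1.1 - n - cen k))
          p₀ := by
        have h3 : ContinuousAt (fun p : V => (min p.1.2.2 (1 / 4), p.1.1 - n - cen k)) p₀ :=
          ((g3_ch.min continuous_const).prodMk
            ((g3_cx.sub continuous_const).sub continuous_const)).continuousAt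
        have hop : IsOpen {p : ℝ × ℝ | 0 < p.1} := isOpen_lt continuous_const continuous_fst
        have h4 : ContinuousAt (fun p : ℝ × ℝ => psi (hal k) p.1 p.2)
            (min p₀.1.2.2 (1 / 4), p₀.1.1 - n - cen k) :=
          (continuousOn_psi (hal k)).continuousAt
            (hop.mem_nhds (show 0 < min p₀.1.2.2 (1 / 4) from lt_min hpos (by norm_num)))
        exact ContinuousAt.comp (f := fun p : V => (min p.1.2.2 (1 / 4), p.1.1 - n - cen k))
          (x := p₀) (g := fun p : ℝ × ℝ => psi (hal k) p.1 p.2) h4 h3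
      exact h1.mul h2
  · have h1 : (fun _ : V => (0 : ℝ)) =ᶠ[𝓝 p₀] (fun p : V => trm (k, n) p.1) := by
      filter_upwards [g3_ev_zero k n p₀ h0.symm] with p hp
      exact hp.symm
    exact continuousAt_const.congr h1

private theorem g3_supp (k : Fin 54) (n : ℤ) (p : V) (h : trm (k, n) p.1 ≠ 0) :
    |p.1.1 - n| ≤ 5 := by
  have h1 : th k (TTn (-n) p.1.2.1) p.1.2.2 * psi (hal k) (min p.1.2.2 (1 / 4))
      (p.1.1 - n - cen k) ≠ 0 := h
  have hpos : 0 < p.1.2.2 := by
    by_contra hcon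
    exact h1 (by rw [th_of_nonpos _ _ (not_lt.1 hcon), zero_mul])
  have hm : 0 ≤ hal k := by unfold hal; positivity
  have h2 : |p.1.1 - n - cen k| < hal k + min p.1.2.2 (1 / 4) := by
    by_contra hcon
    push Not at hcon
    exact h1 (by rw [psi_of_ge hm (lt_min hpos (by norm_num)) hcon, mul_zero])
  have h3 : min p.1.2.2 (1 / 4) ≤ 1 / 4 := min_le_right _ _
  have h4 : (ell k : ℝ) ≤ 5 := by exact_mod_cast g3_ell k
  have h5 : (0 : ℝ) ≤ ell k := Nat.cast_nonneg _
  unfold hal cen at h2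
  rw [abs_lt] at h2
  rw [abs_le]
  constructor <;> linarith [h2.1, h2.2]

theorem locallyFinite_trm : LocallyFinite (fun i : Fin 54 × ℤ => Function.support (fun p : V => trm i p.1)) := by
  intro p₀
  refine ⟨{p : V | |p.1.1 - p₀.1.1| < 1}, ?_, ?_⟩
  · have hopen : IsOpen {p : V | |p.1.1 - p₀.1.1| < 1} :=
      isOpen_lt ((g3_cx.sub continuous_const).abs) continuous_const
    exact hopen.mem_nhds (by simp)
  · refine Set.Finite.subset ((Set.finite_univ (α := Fin 54)).prod
      (Set.finite_Icc (⌊p₀.1.1⌋ - 7) (⌊p₀.1.1⌋ + 7))) ?_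
    rintro ⟨k, n⟩ ⟨p, hp, hp2⟩
    refine ⟨Set.mem_univ _, ?_⟩
    have h1 := g3_supp k n p hp
    have h2 : |p.1.1 - p₀.1.1| < 1 := hp2
    rw [abs_le] at h1
    rw [abs_lt] at h2
    have h3 := Int.floor_le p₀.1.1
    have h4 := Int.lt_floor_add_one p₀.1.1
    constructor
    · have : ((⌊p₀.1.1⌋ - 7 : ℤ) : ℝ) ≤ n := by push_cast; linarith [h1.1, h1.2, h2.1, h2.2]
      exact_mod_cast this
    · have : (n : ℝ) ≤ ((⌊p₀.1.1⌋ + 7 : ℤ) : ℝ) := by push_cast; linarith [h1.1, h1.2, h2.1, h2.2]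
      exact_mod_cast this

theorem continuous_lam : Continuous (fun p : V => lam p.1) := by
  have h1 : Continuous (fun p : V => ∑ᶠ i : Fin 54 × ℤ, trm i p.1) :=
    continuous_finsum (fun i => continuous_trm i) locallyFinite_trm
  exact g3_cx.sub h1

theorem continuous_Lam : Continuous Lam := by
  refine Continuous.subtype_mk ?_ _
  exact continuous_lam.prodMk (continuous_snd.comp continuous_subtype_val)

end Pool.AML
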