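import Pool.Agent.AML.G.G3

/-! [AML-G4] `Lam` is the identity near the bottom `h = 0` of `V`, and nothing else is mapped there.

Let `p₀ = (x₀, f₀, 0) ∈ V`. Let `A` be the finite set of `(k, n)` with `0 < ell k` and
`|x₀ - n - cen k| ≤ hal k + 1`. For `(k, n) ∈ A`: either `f₀ ≠ lev k + n`, then `th k (TTn (-n) f) h = 0`
for `(f, h)` near `(f₀, 0)`; or `f₀ = lev k + n`, then `|x₀ - n - cen k| > hal k` (`slit_iff`). Choose
`0 < η < 1/4` smaller than `(|x₀ - n - cen k| - hal k) / 3` for the second kind, and a neighbourhood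
`N = {|x - x₀| < η, f ∈ N_f, h < η}` such that the first alternative holds on `N_f × [0, η)`. Then for
`p ∈ N` no term is non zero, so `Lam p = p` (`lam_eq`). If `Lam q ∈ N` then `lam (Lam q) = lam q`, so by
`lam_inj` either `Lam q = q` or `q`, `Lam q` lie on a slit `(k, n)` of level `f`, which is impossible
for `Lam q ∈ N` by the choice of `N` (`(k, n) ∈ A` since `η < 1/4`). -/

set_option linter.style.longLine false

open Topology Set

namespace Pool.AML

private theorem g4_cx : Continuous (fun p : V => p.1.1) :=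
  continuous_fst.comp continuous_subtype_val

private theorem g4_cf : Continuous (fun p : V => p.1.2.1) :=
  (continuous_fst.comp continuous_snd).comp continuous_subtype_val

private theorem g4_ch : Continuous (fun p : V => p.1.2.2) :=
  (continuous_snd.comp continuous_snd).comp continuous_subtype_val

private theorem g4_th_zero (k : Fin 54) (y h : ℝ) (hy : 1 / 200 * min h 1 ≤ |y - lev k|) :
    th k (y : OnePoint ℝ) h = 0 := by
  change (if h ≤ 0 then (0 : ℝ) else max 0 (1 - |y - lev k| / (1 / 200 * min h 1))) = 0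
  split_ifs with hh
  · rfl
  · push Not at hh
    have hm : 0 < 1 / 200 * min h 1 := mul_pos (by norm_num) (lt_min hh one_pos)
    refine max_eq_left ?_
    have : 1 ≤ |y - lev k| / (1 / 200 * min h 1) := (one_le_div hm).2 hy
    linarith

private theorem g4_ell (k : Fin 54) : ell k ≤ 5 := by
  revert k; decide

private theorem g4_zero_infty (k : Fin 54) : ∀ᶠ f in 𝓝 (OnePoint.infty : OnePoint ℝ),
    ∀ h, th k f h = 0 := by
  have hopen : IsOpen (((↑) : ℝ → OnePoint ℝ) '' (Metric.closedBall (lev k) (1 / 200)))ᶜ :=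
    OnePoint.isOpen_compl_image_coe.2 ⟨Metric.isClosed_closedBall, isCompact_closedBall _ _⟩
  have hmem : (((↑) : ℝ → OnePoint ℝ) '' (Metric.closedBall (lev k) (1 / 200)))ᶜ ∈
      𝓝 (OnePoint.infty : OnePoint ℝ) := hopen.mem_nhds (by simp)
  filter_upwards [hmem] with f hf h
  induction f using OnePoint.rec with
  | infty => rfl
  | coe y =>
    refine g4_th_zero k y h ?_
    have hy : 1 / 200 < |y - lev k| := by
      by_contra hcon
      push Not at hcon
      exact hf ⟨y, by rw [Metric.mem_closedBall, Real.dist_eq]; exact hcon, rfl⟩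
    have : min h 1 ≤ 1 := min_le_right _ _
    linarith

private theorem g4_ev (k : Fin 54) (n : ℤ) (p₀ : V) (h0 : p₀.1.2.2 = 0) (hk : 0 < ell k) :
    ∀ᶠ p : V in 𝓝 p₀, 0 < p.1.2.2 → th k (TTn (-n) p.1.2.1) p.1.2.2 ≠ 0 →
      hal k + min p.1.2.2 (1 / 4) < |p.1.1 - n - cen k| := by
  have hf : Filter.Tendsto (fun p : V => TTn (-n) p.1.2.1) (𝓝 p₀) (𝓝 (TTn (-n) p₀.1.2.1)) :=
    ((continuous_TTn (-n)).comp g4_cf).tendsto p₀
  have hh : Filter.Tendsto (fun p : V => p.1.2.2) (𝓝 p₀) (𝓝 0) := by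
    have := g4_ch.tendsto p₀
    rwa [h0] at this
  by_cases hinf : TTn (-n) p₀.1.2.1 = OnePoint.infty
  · rw [hinf] at hf
    filter_upwards [hf.eventually (g4_zero_infty k)] with p hp
    intro _ h
    exact absurd (hp _) h
  obtain ⟨y₀, hy₀⟩ := OnePoint.ne_infty_iff_exists.1 hinf
  by_cases hne : y₀ = lev k
  · -- on the level
    have hf₀ : p₀.1.2.1 = ((lev k + n : ℝ) : OnePoint ℝ) := by
      have h1 : TTn n (TTn (-n) p₀.1.2.1) = TTn n (y₀ : OnePoint ℝ) := by rw [hy₀]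
      rw [TTn_add, add_neg_cancel, TTn_zero, TTn_coe, hne] at h1
      exact h1
    have hgt : hal k < |p₀.1.1 - n - cen k| := by
      by_contra hcon
      push Not at hcon
      exact p₀.2.2 h0 ((slit_iff _ _).2 ⟨k, n, hk, hf₀, hcon⟩)
    set ε : ℝ := (|p₀.1.1 - n - cen k| - hal k) / 2 with hε
    have hε0 : 0 < ε := by rw [hε]; linarith
    have hz : Filter.Tendsto (fun p : V => |p.1.1 - n - cen k|) (𝓝 p₀)
        (𝓝 |p₀.1.1 - n - cen k|) :=
      (((g4_cx.sub continuous_const).sub continuous_const).abs).tendsto p₀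
    have e1 : ∀ᶠ p : V in 𝓝 p₀, hal k + ε < |p.1.1 - n - cen k| :=
      hz.eventually (lt_mem_nhds (by rw [hε]; linarith))
    have e2 : ∀ᶠ p : V in 𝓝 p₀, p.1.2.2 < ε := hh.eventually (gt_mem_nhds hε0)
    filter_upwards [e1, e2] with p h1 h2 _ _
    have : min p.1.2.2 (1 / 4) ≤ p.1.2.2 := min_le_left _ _
    linarith
  · -- off the level
    set c : ℝ := |y₀ - lev k| / 2 with hc
    have hc0 : 0 < c := by
      rw [hc]; exact half_pos (abs_pos.2 (sub_ne_zero.2 hne))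
    have hball : ((↑) : ℝ → OnePoint ℝ) '' (Metric.ball y₀ c) ∈ 𝓝 (y₀ : OnePoint ℝ) :=
      OnePoint.isOpenEmbedding_coe.isOpenMap.image_mem_nhds (Metric.ball_mem_nhds _ hc0)
    rw [← hy₀] at hf
    have e1 : ∀ᶠ p : V in 𝓝 p₀, TTn (-n) p.1.2.1 ∈ ((↑) : ℝ → OnePoint ℝ) '' (Metric.ball y₀ c) :=
      hf hball
    have e2 : ∀ᶠ p : V in 𝓝 p₀, p.1.2.2 < c := hh.eventually (gt_mem_nhds hc0)
    filter_upwards [e1, e2] with p h1 h2 _ hth
    exfalso
    apply hth
    obtain ⟨y, hy, hyp⟩ := h1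
    rw [← hyp]
    refine g4_th_zero k y _ ?_
    rw [Metric.mem_ball, Real.dist_eq] at hy
    have h3 : |y₀ - lev k| ≤ |y - y₀| + |y - lev k| := by
      have := abs_sub_abs_le_abs_sub (y₀ - lev k) (y - lev k)
      have h4 : |y₀ - lev k - (y - lev k)| = |y - y₀| := by
        rw [show y₀ - lev k - (y - lev k) = -(y - y₀) by ring, abs_neg]
      linarith
    have h5 : |y₀ - lev k| = 2 * c := by rw [hc]; ring
    have h6 : min p.1.2.2 1 ≤ p.1.2.2 := min_le_left _ _
    linarith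

private theorem g4_nhds (p₀ : V) (h0 : p₀.1.2.2 = 0) : ∀ᶠ p : V in 𝓝 p₀,
    ∀ k : Fin 54, ∀ n : ℤ, 0 < ell k → 0 < p.1.2.2 → th k (TTn (-n) p.1.2.1) p.1.2.2 ≠ 0 →
      hal k + min p.1.2.2 (1 / 4) < |p.1.1 - n - cen k| := by
  have hfin : (Set.Icc (⌊p₀.1.1⌋ - 9) (⌊p₀.1.1⌋ + 9)).Finite := Set.finite_Icc _ _
  have e1 : ∀ᶠ p : V in 𝓝 p₀, ∀ k : Fin 54, ∀ n ∈ Set.Icc (⌊p₀.1.1⌋ - 9) (⌊p₀.1.1⌋ + 9),
      0 < ell k → 0 < p.1.2.2 → th k (TTn (-n) p.1.2.1) p.1.2.2 ≠ 0 →
      hal k + min p.1.2.2 (1 / 4) < |p.1.1 - n - cen k| := by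
    rw [Filter.eventually_all]
    intro k
    rw [Filter.eventually_all_finite hfin]
    intro n _
    by_cases hk : 0 < ell k
    · filter_upwards [g4_ev k n p₀ h0 hk] with p hp _
      exact hp
    · exact Filter.Eventually.of_forall fun p h => absurd h hk
  have e2 : ∀ᶠ p : V in 𝓝 p₀, |p.1.1 - p₀.1.1| < 1 := by
    have hopen : IsOpen {p : V | |p.1.1 - p₀.1.1| < 1} :=
      isOpen_lt ((g4_cx.sub continuous_const).abs) continuous_const
    exact hopen.mem_nhds (by simp)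
  filter_upwards [e1, e2] with p h1 h2 k n hk hpos hth
  by_cases hn : n ∈ Set.Icc (⌊p₀.1.1⌋ - 9) (⌊p₀.1.1⌋ + 9)
  · exact h1 k n hn hk hpos hth
  · have h3 : min p.1.2.2 (1 / 4) ≤ 1 / 4 := min_le_right _ _
    have h4 : (ell k : ℝ) ≤ 5 := by exact_mod_cast g4_ell k
    have h5 : (0 : ℝ) ≤ ell k := Nat.cast_nonneg _
    have h6 := Int.floor_le p₀.1.1
    have h7 := Int.lt_floor_add_one p₀.1.1
    unfold hal cen
    rw [abs_lt] at h2
    rw [Set.mem_Icc, not_and_or] at hn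
    push Not at hn
    rcases hn with hn | hn
    · have h8 : (n : ℝ) ≤ ((⌊p₀.1.1⌋ - 10 : ℤ) : ℝ) := by
        exact_mod_cast (by omega : n ≤ ⌊p₀.1.1⌋ - 10)
      push_cast at h8
      refine lt_of_lt_of_le ?_ (le_abs_self _)
      linarith [h2.1, h2.2]
    · have h8 : ((⌊p₀.1.1⌋ + 10 : ℤ) : ℝ) ≤ n := by
        exact_mod_cast (by omega : ⌊p₀.1.1⌋ + 10 ≤ n)
      push_cast at h8
      refine lt_of_lt_of_le ?_ (neg_le_abs _)
      linarith [h2.1, h2.2]

theorem Lam_local (p₀ : V) (h0 : p₀.1.2.2 = 0) : ∃ N ∈ 𝓝 p₀, (∀ p ∈ N, Lam p = p) ∧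
    (∀ q : V, Lam q ∈ N → Lam q = q) := by
  refine ⟨_, g4_nhds p₀ h0, ?_, ?_⟩
  · intro p hp
    have hfix : lam p.1 = p.1.1 := by
      rcases lam_eq p.1.2.1 p.1.2.2 with h | ⟨k, n, hk, hpos, hth, h⟩
      · exact h p.1.1
      · have h1 := hp k n hk hpos hth.ne'
        have hm : 0 ≤ hal k := by unfold hal; positivity
        have h2 : lam p.1 = p.1.1 - th k (TTn (-n) p.1.2.1) p.1.2.2 *
            psi (hal k) (min p.1.2.2 (1 / 4)) (p.1.1 - n - cen k) := h p.1.1
        rw [h2, psi_of_ge hm (lt_min hpos (by norm_num)) h1.le, mul_zero, sub_zero]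
    exact Subtype.ext (Prod.ext hfix rfl)
  · intro q hq
    have hfix : lam (Lam q).1 = (Lam q).1.1 := by
      rcases lam_eq (Lam q).1.2.1 (Lam q).1.2.2 with h | ⟨k, n, hk, hpos, hth, h⟩
      · exact h (Lam q).1.1
      · have h1 := hq k n hk hpos hth.ne'
        have hm : 0 ≤ hal k := by unfold hal; positivity
        have h2 : lam (Lam q).1 = (Lam q).1.1 - th k (TTn (-n) (Lam q).1.2.1) (Lam q).1.2.2 *
            psi (hal k) (min (Lam q).1.2.2 (1 / 4)) ((Lam q).1.1 - n - cen k) := h (Lam q).1.1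
        rw [h2, psi_of_ge hm (lt_min hpos (by norm_num)) h1.le, mul_zero, sub_zero]
    have hinj := lam_inj q.1.2.1 q.1.2.2 (x := (Lam q).1.1) (x' := q.1.1) hfix
    rcases hinj with h | ⟨hpos, k, n, hk, hf, h1, _⟩
    · exact Subtype.ext (Prod.ext h rfl)
    · exfalso
      have hth : th k (TTn (-n) q.1.2.1) q.1.2.2 = 1 := by
        rw [th_eq_one_iff k _ hpos, hf, TTn_coe]
        congr 1
        push_cast
        ring
      have h2 := hq k n hk hpos (by
        change th k (TTn (-n) q.1.2.1) q.1.2.2 ≠ 0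
        rw [hth]; exact one_ne_zero)
      have h3 : 0 < min (Lam q).1.2.2 (1 / 4) := lt_min hpos (by norm_num)
      linarith

theorem Lam_eq_self (p : V) (h0 : p.1.2.2 = 0) : Lam p = p := by
  have h1 : lam p.1 = p.1.1 := lam_of_nonpos p.1.1 p.1.2.1 (le_of_eq h0)
  exact Subtype.ext (Prod.ext h1 rfl)

/-- fibres of `Lam`. -/
theorem Lam_eq_iff (p q : V) : Lam p = Lam q ↔ p = q ∨ SameRun p q := by
  constructor
  · intro h
    have h2' : (Lam p).1.2 = (Lam q).1.2 := by rw [h]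
    have h1' : (Lam p).1.1 = (Lam q).1.1 := by rw [h]
    have h2 : p.1.2 = q.1.2 := h2'
    have h1 : lam p.1 = lam q.1 := h1'
    have h3 : lam (p.1.1, p.1.2.1, p.1.2.2) = lam (q.1.1, p.1.2.1, p.1.2.2) := by
      have e : q.1 = (q.1.1, p.1.2.1, p.1.2.2) := Prod.ext rfl h2.symm
      rw [← e]; exact h1
    rcases lam_inj p.1.2.1 p.1.2.2 h3 with h | ⟨hpos, k, n, hk, hf, ha, hb⟩
    · exact Or.inl (Subtype.ext (Prod.ext h h2))
    · exact Or.inr ⟨h2.symm, hpos, k, n, hk, hf, ha, hb⟩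
  · rintro (h | ⟨h2, hpos, k, n, hk, hf, ha, hb⟩)
    · rw [h]
    · have e1 : p.1 = (p.1.1, ((lev k + n : ℝ) : OnePoint ℝ), p.1.2.2) :=
        Prod.ext rfl (Prod.ext hf rfl)
      have e2 : q.1 = (q.1.1, ((lev k + n : ℝ) : OnePoint ℝ), p.1.2.2) := by
        refine Prod.ext rfl (Prod.ext ?_ ?_)
        · rw [h2]; exact hf
        · rw [h2]
      have h4 : lam p.1 = lam q.1 := by
        rw [e1, e2, lam_slit hk hpos ha, lam_slit hk hpos hb]
      exact Subtype.ext (Prod.ext h4 h2.symm)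

end Pool.AML
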