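import Pool.Agent.AML.G.G4

/-! [AML-G5] `Lam` is surjective and a quotient map.

Surjective: for fixed `(f, h)` with `h > 0` the function `x ↦ lam (x, f, h)` is continuous with
`|lam - x| ≤ 5/2` (`lam_bound`), so it is onto `ℝ` (intermediate value theorem); for `h = 0` it is the
identity. Continuity in `x` for fixed `(f, h)`: from `continuous_lam` (`h > 0`: all `(x, f, h)` are in `V`).

Quotient map (`isQuotientMap_iff`): let `U ⊆ V` with `Lam ⁻¹' U` open and `p = (y, f, h) ∈ U`.
If `h = 0` use `Lam_local`: on `N` (shrunk to an open set) `U ∩ N = Lam ⁻¹' U ∩ N`.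
If `h > 0`: `I = {x | lam (x, f, h) = y}` is a compact interval `[α, β]` (monotone, continuous,
`|lam - x| ≤ 5/2`), non empty, and `I × {(f, h)} ⊆ Lam ⁻¹' U`, so by the tube lemma
(`generalized_tube_lemma`) there are `η > 0` and a neighbourhood `N` of `(f, h)` in
`OnePoint ℝ × (0, ∞)` with `(α - 2η, β + 2η) × N ⊆ Lam ⁻¹' U`. Since
`lam (α - η, f, h) < y < lam (β + η, f, h)`, for `(f', h')` close to `(f, h)` and `y'` close to `y`
also `lam (α - η, f', h') < y' < lam (β + η, f', h')`, and by the intermediate value theorem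
`y' = lam (x', f', h')` with `x' ∈ (α - η, β + η)`, so `(y', f', h') ∈ U`. -/

set_option linter.style.longLine false

open Topology Set

namespace Pool.AML

/-- a point of `V` at height `h > 0`. -/
def G5_mk (x : ℝ) (b : OnePoint ℝ × ℝ) (hb : 0 < b.2) : V :=
  ⟨(x, b), ⟨hb.le, fun h0 => absurd h0 hb.ne'⟩⟩

theorem G5_mk_val (x : ℝ) (b : OnePoint ℝ × ℝ) (hb : 0 < b.2) : (G5_mk x b hb).1 = (x, b) := rfl

theorem Lam_surjective : Function.Surjective Lam := by
  intro q
  rcases eq_or_lt_of_le q.2.1 with h0 | h0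
  · exact ⟨q, Lam_eq_self q h0.symm⟩
  · have hc : Continuous (fun x : ℝ => lam (x, q.1.2)) := by
      have h1 : Continuous (fun x : ℝ => G5_mk x q.1.2 h0) := by
        apply Continuous.subtype_mk
        fun_prop
      exact continuous_lam.comp h1
    have h2 := lam_bound (q.1.1 - 5 / 2) q.1.2.1 q.1.2.2
    have h3 := lam_bound (q.1.1 + 5 / 2) q.1.2.1 q.1.2.2
    rw [abs_le] at h2 h3
    obtain ⟨x, hx⟩ := mem_range_of_exists_le_of_exists_ge hc (c := q.1.1)
      ⟨q.1.1 - 5 / 2, by
        show lam (q.1.1 - 5 / 2, q.1.2.1, q.1.2.2) ≤ q.1.1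
        linarith [h2.2]⟩
      ⟨q.1.1 + 5 / 2, by
        show q.1.1 ≤ lam (q.1.1 + 5 / 2, q.1.2.1, q.1.2.2)
        linarith [h3.1]⟩
    refine ⟨G5_mk x q.1.2 h0, ?_⟩
    apply Subtype.ext
    show (lam (x, q.1.2), q.1.2) = q.1
    have hx' : lam (x, q.1.2) = q.1.1 := hx
    rw [hx']

theorem Lam_isQuotientMap : IsQuotientMap Lam := by
  rw [isQuotientMap_iff, isCoinducing_iff]
  refine ⟨fun U => ⟨fun hU => ?_, fun hU => hU.preimage continuous_Lam⟩, Lam_surjective⟩
  rw [isOpen_iff_mem_nhds]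
  intro q hq
  rcases eq_or_lt_of_le q.2.1 with h0 | h0
  · obtain ⟨N, hN, hN1, _⟩ := Lam_local q h0.symm
    have h1 : Lam ⁻¹' U ∈ 𝓝 q := by
      apply hU.mem_nhds
      show Lam q ∈ U
      rw [Lam_eq_self q h0.symm]
      exact hq
    filter_upwards [hN, h1] with p hp1 hp2
    have h2 : Lam p ∈ U := hp2
    rwa [hN1 p hp1] at h2
  · rw [Filter.mem_iff_ultrafilter]
    intro g hg
    choose s hs using Lam_surjective
    have hs1 : ∀ z : V, lam (s z).1 = z.1.1 := by
      intro z
      have h1 := congrArg (fun p : V => p.1.1) (hs z)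
      exact h1
    have hs2 : ∀ z : V, (s z).1.2 = z.1.2 := by
      intro z
      have h1 := congrArg (fun p : V => p.1.2) (hs z)
      exact h1
    have hval : Filter.Tendsto (fun z : V => z.1) g (𝓝 q.1) :=
      (continuous_subtype_val.tendsto q).mono_left hg
    have hfst : Filter.Tendsto (fun z : V => z.1.1) g (𝓝 q.1.1) :=
      (continuous_fst.tendsto q.1).comp hval
    have hsnd : Filter.Tendsto (fun z : V => z.1.2) g (𝓝 q.1.2) :=
      (continuous_snd.tendsto q.1).comp hval
    have hmem : ∀ᶠ z : V in (g : Filter V), (s z).1.1 ∈ Icc (q.1.1 - 4) (q.1.1 + 4) := by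
      have h1 : ∀ᶠ z : V in (g : Filter V), z.1.1 ∈ Ioo (q.1.1 - 1) (q.1.1 + 1) :=
        hfst.eventually (Ioo_mem_nhds (by linarith) (by linarith))
      filter_upwards [h1] with z hz
      have h2 := lam_bound (s z).1.1 (s z).1.2.1 (s z).1.2.2
      have h3 : lam ((s z).1.1, (s z).1.2.1, (s z).1.2.2) = z.1.1 := hs1 z
      rw [h3, abs_le] at h2
      exact ⟨by linarith [hz.1, hz.2, h2.1, h2.2], by linarith [hz.1, hz.2, h2.1, h2.2]⟩
    obtain ⟨x, _, hx⟩ := isCompact_Icc.ultrafilter_le_nhds (g.map (fun z : V => (s z).1.1)) (by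
      rw [Filter.le_principal_iff]
      exact hmem)
    have hx' : Filter.Tendsto (fun z : V => (s z).1.1) g (𝓝 x) := hx
    have hlim : Filter.Tendsto s g (𝓝 (G5_mk x q.1.2 h0)) := by
      have h1 : Filter.Tendsto (fun z : V => (s z).1) g (𝓝 (G5_mk x q.1.2 h0).1) := by
        have h2 : (fun z : V => (s z).1) = fun z : V => ((s z).1.1, z.1.2) := by
          funext z
          rw [← hs2 z]
        rw [h2, G5_mk_val, nhds_prod_eq]
        exact hx'.prodMk hsnd
      have h3 : IsInducing (Subtype.val : V → ℝ × OnePoint ℝ × ℝ) := IsInducing.subtypeVal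
      exact h3.tendsto_nhds_iff.2 h1
    have hlam : Filter.Tendsto (fun z : V => lam (s z).1) g (𝓝 (lam (G5_mk x q.1.2 h0).1)) :=
      (continuous_lam.tendsto _).comp hlim
    have hy : lam (G5_mk x q.1.2 h0).1 = q.1.1 := by
      have h1 : (fun z : V => lam (s z).1) = fun z : V => z.1.1 := funext hs1
      rw [h1] at hlam
      exact tendsto_nhds_unique hlam hfst
    have hq' : Lam (G5_mk x q.1.2 h0) = q := by
      apply Subtype.ext
      show (lam (G5_mk x q.1.2 h0).1, q.1.2) = q.1
      rw [hy]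
    have h5 : ∀ᶠ z : V in (g : Filter V), s z ∈ Lam ⁻¹' U := by
      apply hlim.eventually
      apply hU.mem_nhds
      show Lam (G5_mk x q.1.2 h0) ∈ U
      rw [hq']
      exact hq
    have h6 : ∀ᶠ z : V in (g : Filter V), z ∈ U := by
      filter_upwards [h5] with z hz
      have h7 : Lam (s z) ∈ U := hz
      rwa [hs z] at h7
    exact h6

end Pool.AML
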