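import Pool.Agent.AML.G.G5

/-! [AML-G6] Compatibility of `Lam` with the elementary identifications.

`SameRun p q → EqvGen VStep' p q`: let the run be `(k, n)`, `f = lev k + n`, and let
`x ∈ [n + 1/2 - ell k, n + 1/2]`; by induction on `i < ell k` the point `(x, f, h)` with
`|x - (n - i)| ≤ 1/2` is equivalent to `(n, f, h)`: translate (`VStep.T`, `|n - i|` times) to the strip `0`, where the
level is `lev (tt^[i] k)` (`run_index`), apply `VStep'.C` to pass to the right end `x = n - i + 1/2`, which is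
the left end of the strip `n - i + 1`. All points `(x, f, h)` with `h > 0` are in `V`.
`VStep'.C p q → SameRun p q` : `run_of_cr`; `p.h > 0` because `p ∈ V` lies on a slit.
`Lam_eqvGen_iff`, direction `→`: prove `∀ p' q', EqvGen VStep p' q' → ∀ p q, Lam p = p' → Lam q = q' →
EqvGen VStep' p q` by induction on `EqvGen` (`rel`: `lift_step` and `Lam_eq_iff`; `refl`: `Lam_eq_iff`;
`trans`: `Lam_surjective` gives a preimage of the middle point). -/

set_option linter.style.longLine false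

open Topology Set Relation

namespace Pool.AML

private theorem g6_slit_TT {x : ℝ} {f : OnePoint ℝ} (h : slit (x + 1) (TT f)) : slit x f := by
  obtain ⟨n, hn, k, hk, hf⟩ := h
  refine ⟨n - 1, ?_, k, hk, ?_⟩
  · push_cast
    have : x - ((n : ℝ) - 1) = x + 1 - n := by ring
    rw [this]; exact hn
  · induction f using OnePoint.rec with
    | infty => rw [TT_infty] at hf; exact absurd hf (OnePoint.infty_ne_coe _)
    | coe y =>
      rw [TT_coe] at hf
      have h1 : y + 1 = lev k + n := OnePoint.coe_injective hf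
      have h2 : y = lev k + ((n - 1 : ℤ) : ℝ) := by push_cast; linarith
      rw [h2]

/-- translate of a point of `V`. -/
private noncomputable def g6_tr (p : V) : V :=
  ⟨(p.1.1 + 1, TT p.1.2.1, p.1.2.2), p.2.1, fun h hs => p.2.2 h (g6_slit_TT hs)⟩

private theorem g6_ext {p q : V} (h1 : p.1.1 = q.1.1) (h2 : p.1.2.1 = q.1.2.1)
    (h3 : p.1.2.2 = q.1.2.2) : p = q :=
  Subtype.ext (Prod.ext h1 (Prod.ext h2 h3))

private theorem g6_eqvGen_nat (m : ℕ) : ∀ p q : V, q.1.1 = p.1.1 + m → q.1.2.1 = TTn m p.1.2.1 →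
    q.1.2.2 = p.1.2.2 → EqvGen VStep p q := by
  induction m with
  | zero =>
    intro p q hx hf hh
    have : p = q := by
      refine g6_ext ?_ ?_ hh.symm
      · rw [hx]; simp
      · rw [hf]; simp [TTn_zero]
    rw [this]; exact EqvGen.refl _
  | succ m ih =>
    intro p q hx hf hh
    have h1 : VStep p (g6_tr p) := VStep.T _ _ rfl rfl rfl
    refine EqvGen.trans _ _ _ (EqvGen.rel _ _ h1) (ih _ _ ?_ ?_ ?_)
    · rw [hx]; change _ = p.1.1 + 1 + m; push_cast; ring
    · rw [hf]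
      change _ = TTn m (TT p.1.2.1)
      rw [← TTn_one, TTn_add]
      push_cast
      rfl
    · exact hh

/-- `n`-fold translation on `V`. -/
theorem eqvGen_T (p q : V) (n : ℤ) (hx : q.1.1 = p.1.1 + n) (hf : q.1.2.1 = TTn n p.1.2.1)
    (hh : q.1.2.2 = p.1.2.2) : EqvGen VStep p q := by
  rcases Int.eq_nat_or_neg n with ⟨m, rfl | rfl⟩
  · exact g6_eqvGen_nat m p q (by rw [hx]; push_cast; rfl) hf hh
  · refine EqvGen.symm _ _ (g6_eqvGen_nat m q p ?_ ?_ hh.symm)
    · rw [hx]; push_cast; ring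
    · rw [hf, TTn_add]; simp [TTn_zero]

private theorem g6_mono {p q : V} (h : EqvGen VStep p q) : EqvGen VStep' p q :=
  EqvGen.mono (r := VStep) (p := VStep') (fun _ _ h => VStep'.base _ _ h) _ _ h

/-- the point `(x, f, h)` of `V` for `h > 0`. -/
private noncomputable def g6_pt (x : ℝ) (f : OnePoint ℝ) (h : ℝ) (hh : 0 < h) : V :=
  ⟨(x, f, h), hh.le, fun h0 => absurd h0 hh.ne'⟩

private theorem g6_strip (k : Fin 54) (n : ℤ) (hk : 0 < ell k) (i : ℕ) (hi : i < ell k)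
    {h : ℝ} (hh : 0 < h) (x x' : ℝ) (hx : |x - (n - i)| ≤ 1 / 2) (hx' : |x' - (n - i)| ≤ 1 / 2) :
    EqvGen VStep' (g6_pt x ((lev k + n : ℝ) : OnePoint ℝ) h hh)
      (g6_pt x' ((lev k + n : ℝ) : OnePoint ℝ) h hh) := by
  obtain ⟨hc, hl⟩ := run_index k hk i hi
  have key : ∀ y : ℝ, EqvGen VStep' (g6_pt y ((lev k + n : ℝ) : OnePoint ℝ) h hh)
      (g6_pt (y - (n - i)) ((lev (tt^[i] k) : ℝ) : OnePoint ℝ) h hh) := by
    intro y
    refine g6_mono (eqvGen_T _ _ (i - n) ?_ ?_ rfl)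
    · change y - (n - i) = y + ((i - n : ℤ) : ℝ)
      push_cast; ring
    · change ((lev (tt^[i] k) : ℝ) : OnePoint ℝ) = TTn (i - n) ((lev k + n : ℝ) : OnePoint ℝ)
      rw [TTn_coe, hl]
      push_cast
      congr 1
      ring
  refine EqvGen.trans _ _ _ (key x) (EqvGen.trans _ _ _ ?_ (EqvGen.symm _ _ (key x')))
  exact EqvGen.rel _ _ (VStep'.C _ _ (tt^[i] k) hc hx hx' rfl rfl rfl)

private theorem g6_run (k : Fin 54) (n : ℤ) (hk : 0 < ell k) {h : ℝ} (hh : 0 < h) (i : ℕ) :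
    i < ell k → ∀ x : ℝ, |x - (n - i)| ≤ 1 / 2 →
    EqvGen VStep' (g6_pt x ((lev k + n : ℝ) : OnePoint ℝ) h hh)
      (g6_pt n ((lev k + n : ℝ) : OnePoint ℝ) h hh) := by
  induction i with
  | zero =>
    intro hi x hx
    refine g6_strip k n hk 0 hi hh x n hx ?_
    simp
  | succ i ih =>
    intro hi x hx
    refine EqvGen.trans _ _ _ (g6_strip k n hk (i + 1) hi hh x (n - (i + 1 : ℕ) + 1 / 2) hx ?_)
      (ih (Nat.lt_of_succ_lt hi) _ ?_)
    · rw [show ((n : ℝ) - ((i + 1 : ℕ) : ℝ) + 1 / 2 - (n - ((i + 1 : ℕ) : ℝ))) = 1 / 2 by ring]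
      norm_num
    · rw [show ((n : ℝ) - ((i + 1 : ℕ) : ℝ) + 1 / 2 - (n - (i : ℝ))) = - (1 / 2) by push_cast; ring]
      norm_num

private theorem g6_run' (k : Fin 54) (n : ℤ) (hk : 0 < ell k) {h : ℝ} (hh : 0 < h) (x : ℝ)
    (hx : |x - n - cen k| ≤ hal k) :
    EqvGen VStep' (g6_pt x ((lev k + n : ℝ) : OnePoint ℝ) h hh)
      (g6_pt n ((lev k + n : ℝ) : OnePoint ℝ) h hh) := by
  unfold cen hal at hx
  rw [abs_le] at hx
  obtain ⟨h1, h2⟩ := hx
  set t : ℝ := n + 1 / 2 - x with ht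
  have ht0 : 0 ≤ t := by rw [ht]; linarith
  have ht1 : t ≤ ell k := by rw [ht]; linarith
  by_cases hc : ⌊t⌋₊ < ell k
  · refine g6_run k n hk hh ⌊t⌋₊ hc x ?_
    have e1 : (⌊t⌋₊ : ℝ) ≤ t := Nat.floor_le ht0
    have e2 : t < ⌊t⌋₊ + 1 := Nat.lt_floor_add_one t
    rw [abs_le]
    constructor <;> linarith
  · have e1 : (⌊t⌋₊ : ℝ) ≤ t := Nat.floor_le ht0
    have e2 : (ell k : ℝ) ≤ ⌊t⌋₊ := by exact_mod_cast not_lt.1 hc
    have e3 : t = ell k := by linarith
    refine g6_run k n hk hh (ell k - 1) (Nat.sub_lt hk one_pos) x ?_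
    have e4 : ((ell k - 1 : ℕ) : ℝ) = (ell k : ℝ) - 1 := by
      rw [Nat.cast_sub hk]; simp
    rw [e4, abs_le]
    constructor <;> linarith

theorem sameRun_eqvGen (p q : V) (h : SameRun p q) : EqvGen VStep' p q := by
  obtain ⟨h2, hpos, k, n, hk, hf, hp, hq⟩ := h
  have e1 : p = g6_pt p.1.1 ((lev k + n : ℝ) : OnePoint ℝ) p.1.2.2 hpos :=
    g6_ext rfl hf rfl
  have e2 : q = g6_pt q.1.1 ((lev k + n : ℝ) : OnePoint ℝ) p.1.2.2 hpos := by
    refine g6_ext rfl ?_ ?_
    · rw [h2]; exact hf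
    · rw [h2]; rfl
  rw [e1, e2]
  exact EqvGen.trans _ _ _ (g6_run' k n hk hpos _ hp) (EqvGen.symm _ _ (g6_run' k n hk hpos _ hq))

theorem sameRun_of_C (p q : V) (k : Fin 54) (hk : cr k = true) (h1 : |p.1.1| ≤ 1 / 2)
    (h2 : |q.1.1| ≤ 1 / 2) (hp : p.1.2.1 = ((lev k : ℝ) : OnePoint ℝ))
    (hq : q.1.2.1 = ((lev k : ℝ) : OnePoint ℝ)) (hh : q.1.2.2 = p.1.2.2) : SameRun p q := by
  have hpos : 0 < p.1.2.2 := by
    rcases lt_or_eq_of_le p.2.1 with h | h
    · exact h
    · exact absurd (⟨0, by simpa using h1, k, hk, by simpa using hp⟩ : slit p.1.1 p.1.2.1)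
        (p.2.2 h.symm)
  obtain ⟨k', n, hk', hl, hx⟩ := run_of_cr k hk
  refine ⟨Prod.ext (hq.trans hp.symm) hh, hpos, k', n, hk', ?_, hx _ h1, hx _ h2⟩
  rw [hp, hl]

/-- `Lam` maps steps of `VStep'` to `EqvGen VStep`. -/
theorem Lam_step (p q : V) (h : VStep' p q) : EqvGen VStep (Lam p) (Lam q) := by
  cases h with
  | base h =>
    cases h with
    | T hx hf hh =>
      refine EqvGen.rel _ _ (VStep.T _ _ ?_ hf hh)
      rw [Lam_fst, Lam_fst]
      have hq : q.1 = (p.1.1 + 1, TT p.1.2.1, p.1.2.2) := Prod.ext hx (Prod.ext hf hh)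
      rw [hq, lam_TT]
    | S h1 hp hq hx hf =>
      rw [Lam_eq_self p hp, Lam_eq_self q hq]
      exact EqvGen.rel _ _ (VStep.S _ _ h1 hp hq hx hf)
  | C k hk h1 h2 hp hq hh =>
    have : Lam p = Lam q := (Lam_eq_iff p q).2 (Or.inr (sameRun_of_C p q k hk h1 h2 hp hq hh))
    rw [this]; exact EqvGen.refl _

/-- lifting of the steps of `VStep` through `Lam`. -/
theorem lift_step (p' q' : V) (h : VStep p' q') (p : V) (hp : Lam p = p') :
    ∃ q : V, Lam q = q' ∧ EqvGen VStep' p q := by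
  subst hp
  cases h with
  | T hx hf hh =>
    refine ⟨g6_tr p, g6_ext ?_ ?_ ?_, EqvGen.rel _ _ (VStep'.base _ _ (VStep.T _ _ rfl rfl rfl))⟩
    · rw [hx, Lam_fst, Lam_fst]
      exact lam_TT p.1.1 p.1.2.1 p.1.2.2
    · rw [hf]; rfl
    · rw [hh]; rfl
  | S h1 hp hq hx hf =>
    have e : Lam p = p := Lam_eq_self p hp
    rw [e] at h1 hx hf
    exact ⟨q', Lam_eq_self q' hq, EqvGen.rel _ _ (VStep'.base _ _ (VStep.S _ _ h1 hp hq hx hf))⟩

private theorem g6_of_eq (p q : V) (h : Lam p = Lam q) : EqvGen VStep' p q := by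
  rcases (Lam_eq_iff p q).1 h with h | h
  · rw [h]; exact EqvGen.refl _
  · exact sameRun_eqvGen p q h

theorem Lam_eqvGen_iff (p q : V) : EqvGen VStep (Lam p) (Lam q) ↔ EqvGen VStep' p q := by
  constructor
  · intro h
    have key : ∀ p' q', EqvGen VStep p' q' → ∀ p q, Lam p = p' → Lam q = q' →
        EqvGen VStep' p q := by
      intro p' q' h
      induction h with
      | rel x y h =>
        intro p q hp hq
        obtain ⟨q0, h1, h2⟩ := lift_step x y h p hp
        exact EqvGen.trans _ _ _ h2 (g6_of_eq q0 q (h1.trans hq.symm))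
      | refl x =>
        intro p q hp hq
        exact g6_of_eq p q (hp.trans hq.symm)
      | symm x y _ ih =>
        intro p q hp hq
        exact EqvGen.symm _ _ (ih q p hq hp)
      | trans x y z _ _ ih1 ih2 =>
        intro p q hp hq
        obtain ⟨m, hm⟩ := Lam_surjective y
        exact EqvGen.trans _ _ _ (ih1 p m hp hm) (ih2 m q hm hq)
    exact key _ _ h p q rfl rfl
  · intro h
    induction h with
    | rel x y h => exact Lam_step x y h
    | refl x => exact EqvGen.refl _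
    | symm x y _ ih => exact EqvGen.symm _ _ ih
    | trans x y z _ _ ih1 ih2 => exact EqvGen.trans _ _ _ ih1 ih2

end Pool.AML
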