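import Pool.Agent.AML.G.G5
import Pool.Agent.AML.G.G6

/-! [AML-G7] Conclusion of block G: `V/~` and `V/~'` are homeomorphic.

`Quot.mk VStep ∘ Lam : V → Quot VStep` is a quotient map (composition of quotient maps,
`isQuotientMap_quot_mk`), and it identifies `p, q` iff `EqvGen VStep' p q` (`Quot.eq`, `Lam_eqvGen_iff`), as does the
quotient map `Quot.mk VStep'`. Two quotient maps with the same fibres have homeomorphic targets
(`Topology.IsQuotientMap.homeomorph`, or `Quot.lift` in both directions with
`IsQuotientMap.continuous_iff`). -/

set_option linter.style.longLine false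

open Topology Set Relation

namespace Pool.AML

private theorem g7_homeo {X Y Z : Type*} [TopologicalSpace X] [TopologicalSpace Y]
    [TopologicalSpace Z] {f : X → Y} {g : X → Z} (hf : IsQuotientMap f) (hg : IsQuotientMap g)
    (h : ∀ x y, f x = f y ↔ g x = g y) : Nonempty (Y ≃ₜ Z) := by
  let a : Y → Z := fun y => g (Function.surjInv hf.surjective y)
  let b : Z → Y := fun z => f (Function.surjInv hg.surjective z)
  have ha : ∀ x, a (f x) = g x := fun x =>
    (h _ _).1 (Function.surjInv_eq hf.surjective (f x))
  have hb : ∀ x, b (g x) = f x := fun x =>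
    (h _ _).2 (Function.surjInv_eq hg.surjective (g x))
  have hca : Continuous a := by
    rw [hf.continuous_iff]
    have : a ∘ f = g := funext ha
    rw [this]; exact hg.continuous
  have hcb : Continuous b := by
    rw [hg.continuous_iff]
    have : b ∘ g = f := funext hb
    rw [this]; exact hf.continuous
  refine ⟨{ toFun := a, invFun := b, left_inv := ?_, right_inv := ?_,
            continuous_toFun := hca, continuous_invFun := hcb }⟩
  · intro y
    obtain ⟨x, rfl⟩ := hf.surjective y
    rw [ha, hb]
  · intro z
    obtain ⟨x, rfl⟩ := hg.surjective z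
    rw [hb, ha]

theorem partG : Nonempty (Quot VStep ≃ₜ Quot VStep') := by
  refine g7_homeo (f := Quot.mk VStep ∘ Lam) (g := Quot.mk VStep')
    (isQuotientMap_quot_mk.comp Lam_isQuotientMap) isQuotientMap_quot_mk ?_
  intro p q
  simp only [Function.comp_apply]
  rw [Quot.eq, Quot.eq]
  exact Lam_eqvGen_iff p q

end Pool.AML
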