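import Pool.Agent.AML.G.G2

/-! # Block G: the collapsing map `Lam : V → V` (definition). -/

set_option linter.style.longLine false

open Topology Set

namespace Pool.AML

noncomputable section

theorem Lam_mem (p : V) : 0 ≤ (lam p.1, p.1.2).2.2 ∧
    ((lam p.1, p.1.2).2.2 = 0 → ¬ slit (lam p.1, p.1.2).1 (lam p.1, p.1.2).2.1) := by
  refine ⟨p.2.1, fun h => ?_⟩
  have h0 : p.1.2.2 = 0 := h
  have h1 : lam p.1 = p.1.1 := lam_of_nonpos p.1.1 p.1.2.1 (le_of_eq h0)
  change ¬ slit (lam p.1) p.1.2.1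
  rw [h1]
  exact p.2.2 h0

/-- the collapsing map `(x, f, h) ↦ (lam (x, f, h), f, h)`. -/
def Lam (p : V) : V := ⟨(lam p.1, p.1.2), Lam_mem p⟩

theorem Lam_fst (p : V) : (Lam p).1.1 = lam p.1 := rfl

theorem Lam_snd (p : V) : (Lam p).1.2 = p.1.2 := rfl

end

end Pool.AML
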